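import Mathlib

namespace Pool.Agent.Results.MP_1867c4_co.RatioAtMostTwo

open Finset SimpleGraph

variable {V : Type} [Fintype V] [DecidableEq V] (G : SimpleGraph V)

/-- Eccentricity. -/
noncomputable def ecc (v : V) : ℕ := univ.sup (fun u => G.dist v u)

/-- Broadcasts. -/
def IsBc (f : V → ℕ) : Prop := ∀ v, f v ≤ univ.sup (ecc G) ∧ f v ≤ ecc G v

/-- `u` hears `f` from some broadcasting vertex. -/
def Hears (f : V → ℕ) (u : V) : Prop := ∃ v, 0 < f v ∧ G.dist u v ≤ f v

/-- Minimal dominating broadcasts. -/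
def MinDom (f : V → ℕ) : Prop := IsBc G f ∧ (∀ u, Hears G f u) ∧
  ¬ ∃ g, IsBc G g ∧ (∀ v, g v ≤ f v) ∧ g ≠ f ∧ ∀ u, Hears G g u

/-- Irredundant broadcasts. -/
def Irr (f : V → ℕ) : Prop := IsBc G f ∧
  ∀ v, 0 < f v → ∃ u, G.dist u v ≤ f v ∧ ¬ Hears G (Function.update f v (f v - 1)) u

/-- The upper broadcast number. -/
noncomputable def upperB : ℕ := sSup {w | ∃ f, MinDom G f ∧ ∑ v, f v = w}

/-- The upper broadcast irredundance number. -/
noncomputable def irB : ℕ := sSup {w | ∃ f, Irr G f ∧ ∑ v, f v = w}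

variable {G}

omit [Fintype V] [DecidableEq V] in
lemma mid (hc : G.Connected) {a b : V} (p : G.Walk a b) :
    ∀ i ≤ p.length, ∃ x, G.dist a x ≤ i ∧ G.dist x b + i ≤ p.length := by
  induction p with
  | @nil a => intro i hi; exact ⟨a, by simp, by simpa using hi⟩
  | @cons a a' b h q ih =>
    intro i hi
    cases i with
    | zero => exact ⟨a, by simp, dist_le (Walk.cons h q)⟩
    | succ i =>
      rw [Walk.length_cons] at hi ⊢
      obtain ⟨x, h1, h2⟩ := ih i (by omega)
      have h3 := hc.dist_triangle (u := a) (v := a') (w := x)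
      have h4 : G.dist a a' = 1 := dist_eq_one_iff_adj.2 h
      exact ⟨x, by omega, by omega⟩

lemma irr_le (hc : G.Connected) {f : V → ℕ} (hf : Irr G f) : ∑ v, f v ≤ Fintype.card V := by
  have h1 : ∀ v, ∃ u, 0 < f v → G.dist u v ≤ f v ∧ (f v = 1 ∨ f v ≤ G.dist u v) ∧
      ∀ w, w ≠ v → 0 < f w → f w < G.dist u w := by
    intro v
    by_cases hv : 0 < f v
    · obtain ⟨u, h1, h2⟩ := hf.2 v hv
      refine ⟨u, fun _ => ⟨h1, ?_, fun w hw h => ?_⟩⟩
      · by_contra hn
        exact h2 ⟨v, by rw [Function.update_self]; omega, by rw [Function.update_self]; omega⟩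
      · by_contra hn
        exact h2 ⟨w, by rwa [Function.update_of_ne hw], by rw [Function.update_of_ne hw]; omega⟩
    · exact ⟨v, fun h => absurd h hv⟩
  choose u hu using h1
  have h2 : ∀ q : (Σ v, Fin (f v)), ∃ x, G.dist (u q.1) x ≤ q.2 ∧
      G.dist x q.1 + q.2 ≤ G.dist (u q.1) q.1 := by
    rintro ⟨v, i⟩
    obtain ⟨p, hp⟩ := hc.exists_walk_length_eq_dist (u v) v
    have hi := i.2
    have := (hu v (by omega)).2.1
    exact hp ▸ mid hc p i (by omega)
  choose x hx using h2
  have hinj : Function.Injective x := by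
    rintro ⟨v, i⟩ ⟨w, j⟩ e
    obtain ⟨a1, a2⟩ := hx ⟨v, i⟩
    obtain ⟨b1, b2⟩ := hx ⟨w, j⟩
    rw [← e] at b1 b2
    simp only at a1 a2 b1 b2
    have t1 := hc.dist_triangle (u := u v) (v := x ⟨v, i⟩) (w := w)
    have t2 := hc.dist_triangle (u := u w) (v := x ⟨v, i⟩) (w := v)
    have hi := i.2
    have hj := j.2
    by_cases hvw : v = w
    · subst hvw
      have : i = j := Fin.ext (by omega)
      rw [this]
    · have c1 := (hu v (by omega)).2.2 w (Ne.symm hvw) (by omega)
      have c2 := (hu w (by omega)).2.2 v hvw (by omega)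
      have c3 := (hu v (by omega)).1
      have c4 := (hu w (by omega)).1
      omega
  simpa using Fintype.card_le_of_injective x hinj

lemma cls (hc : G.Connected) [Nontrivial V] (c : G.Coloring (Fin 2)) (k : Fin 2) :
    MinDom G (fun v => if c v = k then 1 else 0) := by
  have nb : ∀ v, ∃ w, G.Adj v w := fun v => hc.preconnected.exists_adj_of_nontrivial v
  refine ⟨fun v => ?_, fun v => ?_, ?_⟩
  · obtain ⟨w, hw⟩ := nb v
    have h1 : 1 ≤ ecc G v :=
      (dist_eq_one_iff_adj.2 hw).ge.trans (Finset.le_sup (f := fun u => G.dist v u) (mem_univ w))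
    have h2 : ecc G v ≤ univ.sup (ecc G) := Finset.le_sup (mem_univ v)
    beta_reduce
    split_ifs <;> omega
  · by_cases h : c v = k
    · exact ⟨v, by simp [h], by simp⟩
    · obtain ⟨w, hw⟩ := nb v
      have h1 := c.valid hw
      have h2 : c w = k := by omega
      exact ⟨w, by simp [h2], by simp [h2, dist_eq_one_iff_adj.2 hw]⟩
  · rintro ⟨g, -, h1, h2, h3⟩
    obtain ⟨v, hv⟩ := Function.ne_iff.1 h2
    obtain ⟨w, hw, hw'⟩ := h3 v
    have a1 := h1 v
    have a2 := h1 w
    beta_reduce at a1 a2 hv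
    have b1 : c v = k ∧ g v = 0 := by
      by_cases h : c v = k
      · rw [if_pos h] at a1 hv; exact ⟨h, by omega⟩
      · rw [if_neg h] at a1 hv; omega
    have b2 : c w = k ∧ g w = 1 := by
      by_cases h : c w = k
      · rw [if_pos h] at a2; exact ⟨h, by omega⟩
      · rw [if_neg h] at a2; omega
    have hne : v ≠ w := by rintro rfl; omega
    have h4 := hc.pos_dist_of_ne hne
    exact c.valid (dist_eq_one_iff_adj.1 (by omega)) (b1.1.trans b2.1.symm)

theorem result {V : Type} [Fintype V] [DecidableEq V] [Nontrivial V] (G : SimpleGraph V)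
    (hc : G.Connected) (hb : G.Colorable 2) :
    irB G ≤ Fintype.card V ∧ Fintype.card V ≤ 2 * upperB G ∧ irB G ≤ 2 * upperB G := by
  obtain ⟨c⟩ := hb
  have h1 : irB G ≤ Fintype.card V := csSup_le' (by rintro w ⟨f, hf, rfl⟩; exact irr_le hc hf)
  have hbd : BddAbove {w | ∃ f, MinDom G f ∧ ∑ v, f v = w} :=
    ⟨∑ v, ecc G v, by rintro w ⟨f, hf, rfl⟩; exact Finset.sum_le_sum (fun v _ => (hf.1 v).2)⟩
  have h2 : ∀ k : Fin 2, ∑ v, (if c v = k then 1 else 0) ≤ upperB G :=
    fun k => le_csSup hbd ⟨_, cls hc c k, rfl⟩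
  have h3 : ∑ v, (if c v = 0 then 1 else 0) + ∑ v, (if c v = 1 then 1 else 0) =
      Fintype.card V := by
    rw [← Finset.sum_add_distrib, ← card_univ, card_eq_sum_ones]
    refine Finset.sum_congr rfl (fun v _ => ?_)
    split_ifs <;> omega
  have h4 := h2 0
  have h5 := h2 1
  omega

end Pool.Agent.Results.MP_1867c4_co.RatioAtMostTwo
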